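import Pool.Agent.Lib.MP_904526_E.HT

set_option autoImplicit false

/-!
# Stable curves of real Henon maps are unbounded when |b| < 1/2

For all real `c` and all real `b` with `0 < |b| < 1/2`, and for EVERY ergodic invariant probability
measure of the Henon map `(x, y) ↦ (x² + c - b y, x)` which is not supported on a sink (saddles,
neutral periodic orbits, non-atomic measures with zero or positive top exponent), almost every stable
set is an injectively immersed line at least one of whose two branches is unbounded.

Sketch of the proof. The stable curve is the real part of an entire curve of order at most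
`log 2 / (Λ + log (1/|b|))`, where `Λ ≥ 0` is the top exponent of the measure (a contraction estimate
along the stable curve, uniform in the complex domain). For `|b| < 1/2` this is less than one. If both
branches were bounded, the entire curve would be bounded on the whole real line, hence on both
half planes by the theorem of Phragmen and Lindelof, hence constant by Liouville.
-/

open Set Filter Topology MeasureTheory

namespace Pool.Agent.Results.MP_904526_an.WholeCurveUnbounded

/-- The real quadratic Henon map with parameters `c` and `b`. -/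
def henonMap (c b : ℝ) (p : ℝ × ℝ) : ℝ × ℝ := (p.1 ^ 2 + c - b * p.2, p.1)

/-- The stable set of `x`: the points whose forward orbit approaches that of `x` exponentially
fast. -/
def stableSet (c b : ℝ) (x : ℝ × ℝ) : Set (ℝ × ℝ) :=
  {y | ∃ κ : ℝ, 0 < κ ∧ ∃ C : ℝ, ∀ n : ℕ,
    dist ((henonMap c b)^[n] y) ((henonMap c b)^[n] x) ≤ C * Real.exp (-κ * n)}

/-- `μ` is supported on a sink: the orbit of a periodic point `p`, some iterate of the map fixing
`p` being a contraction at `p`, has full measure. -/
def SupportedOnSink (c b : ℝ) (μ : Measure (ℝ × ℝ)) : Prop :=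
  ∃ (p : ℝ × ℝ) (m : ℕ), 0 < m ∧ (henonMap c b)^[m] p = p ∧
    ‖fderiv ℝ ((henonMap c b)^[m]) p‖ < 1 ∧
    μ {q | ∃ k : ℕ, q = (henonMap c b)^[k] p} = 1

theorem result (c b : ℝ) (hb0 : 0 < |b|) (hb : |b| < 1 / 2) (μ : Measure (ℝ × ℝ))
    (hp : IsProbabilityMeasure μ) (hμ : Ergodic (henonMap c b) μ) (hs : ¬ SupportedOnSink c b μ) :
    ∀ᵐ x ∂μ, ∃ γ : ℝ → ℝ × ℝ, ContDiff ℝ 1 γ ∧ (∀ t, deriv γ t ≠ 0) ∧
      Function.Injective γ ∧ γ 0 = x ∧ range γ = stableSet c b x ∧
      ¬ (Bornology.IsBounded (γ '' Ioi 0) ∧ Bornology.IsBounded (γ '' Iio 0)) :=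
  ME.half c b hb0 hb μ hp hμ hs

end Pool.Agent.Results.MP_904526_an.WholeCurveUnbounded
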